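import Mathlib

set_option autoImplicit false

namespace Pool.Agent.N676.SemiBaxter

open Finset Function

/-- sums over a finite set of naturals, indexed by rank -/
theorem sum_rank (S : Finset ℕ) (g : ℕ → ℕ) :
    ∑ x ∈ S, g ((S.filter (fun y => y ≤ x)).card) = ∑ i ∈ Icc 1 S.card, g i := by
  induction S using Finset.induction_on_max with
  | empty => simp
  | insert a S ha ih =>
    have hna : a ∉ S := fun h => lt_irrefl _ (ha a h)
    rw [sum_insert hna, card_insert_of_notMem hna, Finset.sum_Icc_succ_top (by omega), ← ih, add_comm]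
    congr 1
    · apply sum_congr rfl
      intro x hx
      congr 2
      ext y
      simp only [mem_filter, mem_insert]
      constructor
      · rintro ⟨h1 | h1, h2⟩
        · subst h1; exact absurd (ha x hx) (by omega)
        · exact ⟨h1, h2⟩
      · rintro ⟨h1, h2⟩; exact ⟨Or.inr h1, h2⟩
    · congr 1
      rw [filter_true_of_mem, card_insert_of_notMem hna]
      intro y hy
      rcases mem_insert.1 hy with h | h
      · exact h.le
      · exact (ha y h).le

theorem sum_rank' (S : Finset ℕ) (g : ℕ → ℕ) :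
    ∑ x ∈ S, g ((S.filter (fun y => x ≤ y)).card) = ∑ i ∈ Icc 1 S.card, g i := by
  induction S using Finset.induction_on_min with
  | empty => simp
  | insert a S ha ih =>
    have hna : a ∉ S := fun h => lt_irrefl _ (ha a h)
    rw [sum_insert hna, card_insert_of_notMem hna, Finset.sum_Icc_succ_top (by omega), ← ih, add_comm]
    congr 1
    · apply sum_congr rfl
      intro x hx
      congr 2
      ext y
      simp only [mem_filter, mem_insert]
      constructor
      · rintro ⟨h1 | h1, h2⟩
        · subst h1; exact absurd (ha x hx) (by omega)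
        · exact ⟨h1, h2⟩
      · rintro ⟨h1, h2⟩; exact ⟨Or.inr h1, h2⟩
    · congr 1
      rw [filter_true_of_mem, card_insert_of_notMem hna]
      intro y hy
      rcases mem_insert.1 hy with h | h
      · exact h.ge
      · exact (ha y h).le

/-- the succession rule as an operator on labels -/
def R (f : ℕ → ℕ → ℕ) (h k : ℕ) : ℕ :=
  ∑ i ∈ Icc 1 k, f (h + k + 1 - i) i + ∑ i ∈ Icc 1 h, f i (k + 1)

/-! ### The permutation side -/

/-- avoidance of `2-14-3` -/
def V {n : ℕ} (s : Fin n → ℕ) : Prop :=
  ∀ i b b' l : Fin n, (b' : ℕ) = b + 1 → i < b → b' < l → ¬ (s b < s i ∧ s i < s l ∧ s l < s b')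

/-- active sites -/
def act {n : ℕ} (s : Fin n → ℕ) (c : ℕ) : Prop :=
  ∀ i b b' : Fin n, (b' : ℕ) = b + 1 → i < b → ¬ (s b < s i ∧ s i < c ∧ c ≤ s b')

/-- the shift -/
def sh (c v : ℕ) : ℕ := if v < c then v else v + 1

theorem sh_lt (c v w : ℕ) : sh c v < sh c w ↔ v < w := by
  unfold sh; split_ifs <;> omega

/-- append a new last entry `c`, shifting up the entries `≥ c` -/
def ext {n : ℕ} (s : Fin n → ℕ) (c : ℕ) : Fin (n + 1) → ℕ :=
  fun i => if h : i.val < n then sh c (s ⟨i.val, h⟩) else c

theorem ext_castSucc {n : ℕ} (s : Fin n → ℕ) (c : ℕ) (i : Fin n) :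
    ext s c i.castSucc = sh c (s i) := by
  simp [ext]

theorem ext_last {n : ℕ} (s : Fin n → ℕ) (c : ℕ) : ext s c (Fin.last n) = c := by
  simp [ext]

theorem V_ext {n : ℕ} (s : Fin n → ℕ) (c : ℕ) : V (ext s c) ↔ V s ∧ act s c := by
  constructor
  · intro h
    constructor
    · intro i b b' l h1 h2 h3 h4
      refine h i.castSucc b.castSucc b'.castSucc l.castSucc (by simpa using h1) (by simpa using h2)
        (by simpa using h3) ?_
      simpa only [ext_castSucc, sh_lt] using h4
    · intro i b b' h1 h2 h4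
      refine h i.castSucc b.castSucc b'.castSucc (Fin.last n) (by simpa using h1) (by simpa using h2)
        (Fin.castSucc_lt_last _) ?_
      simp only [ext_castSucc, ext_last, sh_lt]
      refine ⟨h4.1, ?_, ?_⟩
      · unfold sh; split_ifs <;> omega
      · unfold sh; split_ifs <;> omega
  · rintro ⟨hV, hA⟩ i b b' l h1 h2 h3 h4
    have hb'n : (b' : ℕ) < n := by have := l.isLt; have : (b' : ℕ) < l := h3; omega
    have hbn : (b : ℕ) < n := by omega
    have hin : (i : ℕ) < n := by have : (i : ℕ) < b := h2; omega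
    have e1 : ext s c i = sh c (s ⟨i, hin⟩) := by simp [ext, hin]
    have e2 : ext s c b = sh c (s ⟨b, hbn⟩) := by simp [ext, hbn]
    have e3 : ext s c b' = sh c (s ⟨b', hb'n⟩) := by simp [ext, hb'n]
    rw [e1, e2, e3] at h4
    by_cases hl : (l : ℕ) < n
    · have e4 : ext s c l = sh c (s ⟨l, hl⟩) := by simp [ext, hl]
      rw [e4] at h4
      simp only [sh_lt] at h4
      exact hV ⟨i, hin⟩ ⟨b, hbn⟩ ⟨b', hb'n⟩ ⟨l, hl⟩ h1 h2 h3 h4
    · have e4 : ext s c l = c := by simp [ext, hl]
      rw [e4] at h4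
      refine hA ⟨i, hin⟩ ⟨b, hbn⟩ ⟨b', hb'n⟩ h1 h2 ⟨(sh_lt _ _ _).1 h4.1, ?_, ?_⟩
      · have := h4.2.1
        unfold sh at this; split_ifs at this <;> omega
      · have := h4.2.2
        unfold sh at this; split_ifs at this <;> omega

/-- activity after appending -/
theorem act_ext {n : ℕ} (s : Fin (n + 1) → ℕ) (hs : ∀ v < n + 1, ∃ i, s i = v) (c t : ℕ)
    (hc : c ≤ n + 1) :
    act (ext s c) t ↔ (t ≤ c ∧ t ≤ s (Fin.last n) + 1 ∧ act s t) ∨ (c < t ∧ act s (t - 1)) := by
  constructor
  · intro h
    rcases le_or_gt t c with htc | htc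
    · left
      refine ⟨htc, ?_, ?_⟩
      · by_contra hlt
        push Not at hlt
        obtain ⟨i, hi⟩ := hs (s (Fin.last n) + 1) (by omega)
        have hil : i < Fin.last n := by
          rcases Fin.lt_or_eq_of_le (Fin.le_last i) with h' | h'
          · exact h'
          · subst h'; omega
        refine h i.castSucc (Fin.last n).castSucc (Fin.last (n + 1)) (by simp)
          (by simpa using hil) ?_
        rw [ext_castSucc, ext_castSucc, ext_last, sh_lt, hi]
        refine ⟨by omega, ?_, htc⟩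
        unfold sh; split_ifs <;> omega
      · intro i b b' h1 h2 h4
        refine h i.castSucc b.castSucc b'.castSucc (by simpa using h1) (by simpa using h2) ?_
        simp only [ext_castSucc, sh_lt]
        refine ⟨h4.1, ?_, ?_⟩
        · unfold sh; split_ifs <;> omega
        · unfold sh; split_ifs <;> omega
    · right
      refine ⟨htc, ?_⟩
      intro i b b' h1 h2 h4
      refine h i.castSucc b.castSucc b'.castSucc (by simpa using h1) (by simpa using h2) ?_
      simp only [ext_castSucc, sh_lt]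
      refine ⟨h4.1, ?_, ?_⟩
      · unfold sh; split_ifs <;> omega
      · unfold sh; split_ifs <;> omega
  · intro h i b b' h1 h2 h4
    have hbn : (b : ℕ) < n + 1 := by have := b'.isLt; omega
    have hin : (i : ℕ) < n + 1 := by have : (i : ℕ) < b := h2; omega
    have e1 : ext s c i = sh c (s ⟨i, hin⟩) := by simp [ext, hin]
    have e2 : ext s c b = sh c (s ⟨b, hbn⟩) := by simp [ext, hbn]
    rw [e1, e2] at h4
    by_cases hb' : (b' : ℕ) < n + 1
    · have e3 : ext s c b' = sh c (s ⟨b', hb'⟩) := by simp [ext, hb']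
      rw [e3] at h4
      rcases h with ⟨htc, hL, hact⟩ | ⟨htc, hact⟩
      · refine hact ⟨i, hin⟩ ⟨b, hbn⟩ ⟨b', hb'⟩ h1 h2 ⟨(sh_lt _ _ _).1 h4.1, ?_, ?_⟩
        · have := h4.2.1
          unfold sh at this; split_ifs at this <;> omega
        · have := h4.2.2
          unfold sh at this; split_ifs at this <;> omega
      · refine hact ⟨i, hin⟩ ⟨b, hbn⟩ ⟨b', hb'⟩ h1 h2 ⟨(sh_lt _ _ _).1 h4.1, ?_, ?_⟩
        · have := h4.2.1
          unfold sh at this; split_ifs at this <;> omega
        · have := h4.2.2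
          unfold sh at this; split_ifs at this <;> omega
    · have e3 : ext s c b' = c := by simp [ext, hb']
      rw [e3] at h4
      have hbl : (⟨b, hbn⟩ : Fin (n + 1)) = Fin.last n := by
        apply Fin.ext
        have := b'.isLt
        simp only [Fin.val_last]
        omega
      rcases h with ⟨htc, hL, hact⟩ | ⟨htc, hact⟩
      · rw [hbl] at h4
        have h5 := (sh_lt _ _ _).1 h4.1
        have h6 := h4.2.1
        have h7 := h4.2.2
        have h8 : s ⟨i, hin⟩ < t := by
          unfold sh at h6; split_ifs at h6 <;> omega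
        omega
      · omega

open Classical in
/-- the set of active sites -/
noncomputable def A {n : ℕ} (s : Fin (n + 1) → ℕ) : Finset ℕ :=
  (range (n + 2)).filter (fun t => act s t)

theorem mem_A {n : ℕ} (s : Fin (n + 1) → ℕ) (t : ℕ) : t ∈ A s ↔ t < n + 2 ∧ act s t := by
  classical
  unfold A
  simp only [mem_filter, mem_range]

/-- the two labels -/
noncomputable def lp {n : ℕ} (s : Fin (n + 1) → ℕ) : ℕ :=
  ((A s).filter (fun t => s (Fin.last n) < t)).card
noncomputable def lq {n : ℕ} (s : Fin (n + 1) → ℕ) : ℕ :=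
  ((A s).filter (fun t => t ≤ s (Fin.last n))).card

/-- the good words of length `n` on the permutation side -/
def G {n : ℕ} (s : Fin n → ℕ) : Prop := (∀ i, s i < n) ∧ Injective s ∧ V s

theorem G.surj {n : ℕ} {s : Fin n → ℕ} (h : G s) : ∀ v < n, ∃ i, s i = v := by
  intro v hv
  have hinj : Injective (fun i : Fin n => (⟨s i, h.1 i⟩ : Fin n)) := by
    intro i j hij
    exact h.2.1 (by simpa using hij)
  obtain ⟨i, hi⟩ := (Finite.injective_iff_surjective.1 hinj) ⟨v, hv⟩
  exact ⟨i, by simpa using hi⟩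

theorem A_ext {n : ℕ} (s : Fin (n + 1) → ℕ) (h : G s) (c : ℕ) (hc : c ∈ A s) :
    A (ext s c) = ((A s).filter (fun t => t ≤ c ∧ t ≤ s (Fin.last n) + 1)) ∪
      ((A s).filter (fun t => c ≤ t)).image (fun t => t + 1) := by
  have hcn : c ≤ n + 1 := by
    have := ((mem_A s c).1 hc).1
    omega
  ext t
  simp only [mem_A, mem_filter, mem_union, mem_image]
  rw [act_ext s h.surj c t hcn]
  constructor
  · rintro ⟨h1, ⟨h2, h3, h4⟩ | ⟨h2, h3⟩⟩
    · left; exact ⟨⟨by omega, h4⟩, h2, h3⟩
    · right; exact ⟨t - 1, ⟨⟨by omega, h3⟩, by omega⟩, by omega⟩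
  · rintro (⟨⟨h1, h2⟩, h3, h4⟩ | ⟨u, ⟨⟨h1, h2⟩, h3⟩, rfl⟩)
    · exact ⟨by omega, Or.inl ⟨h3, h4, h2⟩⟩
    · exact ⟨by omega, Or.inr ⟨by omega, by simpa using h2⟩⟩

theorem lq_ext {n : ℕ} (s : Fin (n + 1) → ℕ) (h : G s) (c : ℕ) (hc : c ∈ A s) :
    lq (ext s c) = ((A s).filter (fun t => t ≤ c ∧ t ≤ s (Fin.last n) + 1)).card := by
  unfold lq
  rw [ext_last, A_ext s h c hc]
  congr 1
  ext t
  simp only [mem_filter, mem_union, mem_image]
  constructor
  · rintro ⟨h1 | ⟨u, hu, rfl⟩, h2⟩
    · exact h1
    · omega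
  · intro h1
    exact ⟨Or.inl h1, h1.2.1⟩

theorem lp_ext {n : ℕ} (s : Fin (n + 1) → ℕ) (h : G s) (c : ℕ) (hc : c ∈ A s) :
    lp (ext s c) = ((A s).filter (fun t => c ≤ t)).card := by
  unfold lp
  rw [ext_last, A_ext s h c hc]
  rw [← card_image_of_injective ((A s).filter (fun t => c ≤ t)) (add_left_injective 1)]
  congr 1
  ext t
  simp only [mem_filter, mem_union, mem_image]
  constructor
  · rintro ⟨h1 | h1, h2⟩
    · omega
    · exact h1
  · rintro ⟨u, hu, rfl⟩
    exact ⟨Or.inr ⟨u, hu, rfl⟩, by omega⟩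

theorem last_mem {n : ℕ} (s : Fin (n + 1) → ℕ) (h : G s) : s (Fin.last n) + 1 ∈ A s := by
  have := h.1 (Fin.last n)
  refine (mem_A _ _).2 ⟨by omega, ?_⟩
  intro i b b' h1 h2 h4
  have hb : b' < Fin.last n := by
    rcases Fin.lt_or_eq_of_le (Fin.le_last b') with h' | h'
    · exact h'
    · subst h'; omega
  have hi : i ≠ Fin.last n := by
    intro h'
    subst h'
    exact absurd h2 (not_lt.2 (Fin.le_last b))
  have hne : s i ≠ s (Fin.last n) := fun h' => hi (h.2.1 h')
  exact h.2.2 i b b' (Fin.last n) h1 h2 hb ⟨h4.1, by omega, by omega⟩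

theorem perm_rule {n : ℕ} (s : Fin (n + 1) → ℕ) (h : G s) (f : ℕ → ℕ → ℕ) :
    ∑ c ∈ A s, f (lp (ext s c)) (lq (ext s c)) = R f (lp s) (lq s) := by
  rw [← sum_filter_add_sum_filter_not (A s) (fun t => t ≤ s (Fin.last n))]
  unfold R
  congr 1
  · -- small sites
    rw [show lq s = ((A s).filter (fun t => t ≤ s (Fin.last n))).card from rfl]
    rw [← sum_rank ((A s).filter (fun t => t ≤ s (Fin.last n)))
      (fun i => f (lp s + ((A s).filter (fun t => t ≤ s (Fin.last n))).card + 1 - i) i)]
    apply sum_congr rfl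
    intro c hc
    have hcA := (mem_filter.1 hc).1
    have hcL := (mem_filter.1 hc).2
    rw [lp_ext s h c hcA, lq_ext s h c hcA]
    have e1 : (A s).filter (fun t => t ≤ c ∧ t ≤ s (Fin.last n) + 1)
        = ((A s).filter (fun t => t ≤ s (Fin.last n))).filter (fun y => y ≤ c) := by
      ext t
      simp only [mem_filter]
      constructor
      · rintro ⟨h1, h2, h3⟩; exact ⟨⟨h1, by omega⟩, h2⟩
      · rintro ⟨⟨h1, h2⟩, h3⟩; exact ⟨h1, h3, by omega⟩
    rw [e1]
    congr 1
    have t1 : ((A s).filter (fun t => t ≤ c)).card + ((A s).filter (fun t => ¬ t ≤ c)).card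
        = (A s).card := card_filter_add_card_filter_not _
    have t2 : ((A s).filter (fun t => t ≤ s (Fin.last n))).card
        + ((A s).filter (fun t => ¬ t ≤ s (Fin.last n))).card = (A s).card :=
      card_filter_add_card_filter_not _
    have t3 : ((A s).filter (fun t => ¬ t ≤ s (Fin.last n))).card = lp s := by
      unfold lp
      congr 1
      ext t
      simp only [mem_filter]
      constructor <;> rintro ⟨h1, h2⟩ <;> exact ⟨h1, by omega⟩
    have t4 : ((A s).filter (fun t => t ≤ c)).card
        = (((A s).filter (fun t => t ≤ s (Fin.last n))).filter (fun y => y ≤ c)).card := by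
      congr 1
      ext t
      simp only [mem_filter]
      constructor
      · rintro ⟨h1, h2⟩; exact ⟨⟨h1, by omega⟩, h2⟩
      · rintro ⟨⟨h1, h2⟩, h3⟩; exact ⟨h1, h3⟩
    have t5 : ((A s).filter (fun t => c ≤ t)).card
        = ((A s).filter (fun t => ¬ t ≤ c)).card + 1 := by
      have : (A s).filter (fun t => c ≤ t) = insert c ((A s).filter (fun t => ¬ t ≤ c)) := by
        ext t
        simp only [mem_filter, mem_insert]
        constructor
        · rintro ⟨h1, h2⟩
          rcases Nat.lt_or_eq_of_le h2 with h3 | h3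
          · right; exact ⟨h1, by omega⟩
          · left; exact h3.symm
        · rintro (h1 | ⟨h1, h2⟩)
          · subst h1; exact ⟨hcA, le_refl _⟩
          · exact ⟨h1, by omega⟩
      rw [this, card_insert_of_notMem]
      simp
    omega
  · -- large sites
    have e0 : (A s).filter (fun t => ¬ t ≤ s (Fin.last n))
        = (A s).filter (fun t => s (Fin.last n) < t) := by
      ext t; simp only [mem_filter, not_le]
    rw [e0, show lp s = ((A s).filter (fun t => s (Fin.last n) < t)).card from rfl]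
    rw [← sum_rank' ((A s).filter (fun t => s (Fin.last n) < t)) (fun i => f i (lq s + 1))]
    apply sum_congr rfl
    intro c hc
    have hcA := (mem_filter.1 hc).1
    have hcL := (mem_filter.1 hc).2
    rw [lp_ext s h c hcA, lq_ext s h c hcA]
    congr 1
    · congr 1
      ext t
      simp only [mem_filter]
      constructor
      · rintro ⟨h1, h2⟩; exact ⟨⟨h1, by omega⟩, h2⟩
      · rintro ⟨⟨h1, h2⟩, h3⟩; exact ⟨h1, h3⟩
    · have : (A s).filter (fun t => t ≤ c ∧ t ≤ s (Fin.last n) + 1)
          = insert (s (Fin.last n) + 1) ((A s).filter (fun t => t ≤ s (Fin.last n))) := by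
        ext t
        simp only [mem_filter, mem_insert]
        constructor
        · rintro ⟨h1, h2, h3⟩
          rcases Nat.lt_or_eq_of_le h3 with h4 | h4
          · right; exact ⟨h1, by omega⟩
          · left; exact h4
        · rintro (h1 | ⟨h1, h2⟩)
          · subst h1; exact ⟨last_mem s h, by omega, le_refl _⟩
          · exact ⟨h1, by omega, by omega⟩
      rw [this, card_insert_of_notMem]
      · rfl
      · simp

open Classical in
/-- the finite set of good words -/
noncomputable def PS (n : ℕ) : Finset (Fin n → ℕ) :=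
  (Fintype.piFinset (fun _ : Fin n => range n)).filter (fun s => G s)

theorem mem_PS {n : ℕ} (s : Fin n → ℕ) : s ∈ PS n ↔ G s := by
  simp only [PS, mem_filter, Fintype.mem_piFinset, mem_range, and_iff_right_iff_imp]
  exact fun h => h.1

/-- delete the last entry -/
def del {n : ℕ} (s : Fin (n + 1) → ℕ) : Fin n → ℕ :=
  fun i => if s i.castSucc < s (Fin.last n) then s i.castSucc else s i.castSucc - 1

theorem ext_del {n : ℕ} (s : Fin (n + 1) → ℕ) (hs : Injective s) :
    ext (del s) (s (Fin.last n)) = s := by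
  funext i
  refine Fin.lastCases ?_ (fun j => ?_) i
  · rw [ext_last]
  · rw [ext_castSucc]
    have : s j.castSucc ≠ s (Fin.last n) := fun h' => (Fin.castSucc_lt_last j).ne (hs h')
    unfold del sh
    split_ifs <;> omega

theorem del_ext {n : ℕ} (s : Fin n → ℕ) (c : ℕ) : del (ext s c) = s := by
  funext i
  unfold del
  rw [ext_castSucc, ext_last]
  unfold sh
  split_ifs <;> omega

theorem G_ext {n : ℕ} (s : Fin n → ℕ) (c : ℕ) :
    G (ext s c) ↔ G s ∧ c ≤ n ∧ act s c := by
  unfold G
  rw [V_ext]
  constructor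
  · rintro ⟨h1, h2, h3, h4⟩
    have hc : c ≤ n := by
      have := h1 (Fin.last n)
      rw [ext_last] at this; omega
    refine ⟨⟨?_, ?_, h3⟩, hc, h4⟩
    · intro i
      have := h1 i.castSucc
      rw [ext_castSucc] at this
      unfold sh at this
      split_ifs at this
      · by_contra hcon
        omega
      · omega
    · intro i j hij
      have : ext s c i.castSucc = ext s c j.castSucc := by
        rw [ext_castSucc, ext_castSucc, hij]
      exact Fin.castSucc_injective _ (h2 this)
  · rintro ⟨⟨h1, h2, h3⟩, h4, h5⟩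
    refine ⟨?_, ?_, h3, h5⟩
    · intro i
      refine Fin.lastCases ?_ (fun j => ?_) i
      · rw [ext_last]; omega
      · rw [ext_castSucc]
        have := h1 j
        unfold sh; split_ifs <;> omega
    · intro i
      refine Fin.lastCases ?_ (fun i' => ?_) i
      · intro j
        refine Fin.lastCases ?_ (fun j' => ?_) j
        · intro _; rfl
        · intro h
          rw [ext_last, ext_castSucc] at h
          exfalso
          unfold sh at h; split_ifs at h <;> omega
      · intro j
        refine Fin.lastCases ?_ (fun j' => ?_) j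
        · intro h
          rw [ext_last, ext_castSucc] at h
          exfalso
          unfold sh at h; split_ifs at h <;> omega
        · intro h
          rw [ext_castSucc, ext_castSucc] at h
          have : s i' = s j' := by
            unfold sh at h; split_ifs at h <;> omega
          rw [h2 this]

theorem PS_step (n : ℕ) (F : (Fin (n + 2) → ℕ) → ℕ) :
    ∑ s ∈ PS (n + 2), F s = ∑ s ∈ PS (n + 1), ∑ c ∈ A s, F (ext s c) := by
  rw [sum_sigma']
  refine sum_bij' (fun s _ => (⟨del s, s (Fin.last (n + 1))⟩ : Σ _ : Fin (n + 1) → ℕ, ℕ))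
    (fun p _ => ext p.1 p.2) ?_ ?_ ?_ ?_ ?_
  · intro s hs
    rw [mem_PS] at hs
    have h1 : ext (del s) (s (Fin.last (n + 1))) = s := ext_del s hs.2.1
    rw [← h1, G_ext] at hs
    rw [mem_sigma]
    refine ⟨(mem_PS _).2 hs.1, ?_⟩
    rw [mem_A]
    exact ⟨by have := hs.2.1; simp only; omega, hs.2.2⟩
  · rintro ⟨s, c⟩ hp
    rw [mem_sigma] at hp
    rw [mem_A] at hp
    rw [mem_PS, G_ext]
    exact ⟨(mem_PS _).1 hp.1, by have := hp.2.1; simp only at this ⊢; omega, hp.2.2⟩
  · intro s hs
    rw [mem_PS] at hs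
    exact ext_del s hs.2.1
  · rintro ⟨s, c⟩ hp
    simp only [del_ext, ext_last]
  · intro s hs
    rw [mem_PS] at hs
    simp only
    rw [ext_del s hs.2.1]

/-! ### The inversion sequence side -/

def W {n : ℕ} (e : Fin n → ℕ) : Prop :=
  (∀ i : Fin n, e i ≤ i.val) ∧ ∀ i j k : Fin n, i < j → j < k → ¬ (e j < e k ∧ e k ≤ e i)

def allow {n : ℕ} (e : Fin n → ℕ) (x : ℕ) : Prop :=
  ∀ i j : Fin n, i < j → ¬ (e j < x ∧ x ≤ e i)

def app {n : ℕ} (e : Fin n → ℕ) (c : ℕ) : Fin (n + 1) → ℕ :=
  fun i => if h : i.val < n then e ⟨i.val, h⟩ else c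

theorem app_castSucc {n : ℕ} (s : Fin n → ℕ) (c : ℕ) (i : Fin n) :
    app s c i.castSucc = s i := by
  simp [app]

theorem app_last {n : ℕ} (s : Fin n → ℕ) (c : ℕ) : app s c (Fin.last n) = c := by
  simp [app]

theorem W_app {n : ℕ} (e : Fin n → ℕ) (c : ℕ) :
    W (app e c) ↔ W e ∧ c ≤ n ∧ allow e c := by
  constructor
  · rintro ⟨h1, h2⟩
    refine ⟨⟨fun i => ?_, fun i j k hij hjk => ?_⟩, ?_, ?_⟩
    · have := h1 i.castSucc
      rwa [app_castSucc] at this
    · have := h2 i.castSucc j.castSucc k.castSucc (by simpa using hij) (by simpa using hjk)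
      simpa only [app_castSucc] using this
    · have := h1 (Fin.last n)
      rw [app_last] at this; simpa using this
    · intro i j hij
      have := h2 i.castSucc j.castSucc (Fin.last n) (by simpa using hij) (Fin.castSucc_lt_last _)
      simpa only [app_castSucc, app_last] using this
  · rintro ⟨⟨h1, h2⟩, h3, h4⟩
    refine ⟨fun i => ?_, fun i j k hij hjk => ?_⟩
    · refine Fin.lastCases ?_ (fun i' => ?_) i
      · rw [app_last]; simpa using h3
      · rw [app_castSucc]; simpa using h1 i'
    · have hjn : (j : ℕ) < n := by have := k.isLt; have : (j : ℕ) < k := hjk; omega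
      have hin : (i : ℕ) < n := by have : (i : ℕ) < j := hij; omega
      have e1 : app e c i = e ⟨i, hin⟩ := by simp [app, hin]
      have e2 : app e c j = e ⟨j, hjn⟩ := by simp [app, hjn]
      rw [e1, e2]
      by_cases hk : (k : ℕ) < n
      · have e3 : app e c k = e ⟨k, hk⟩ := by simp [app, hk]
        rw [e3]
        exact h2 ⟨i, hin⟩ ⟨j, hjn⟩ ⟨k, hk⟩ hij hjk
      · have e3 : app e c k = c := by simp [app, hk]
        rw [e3]
        exact h4 ⟨i, hin⟩ ⟨j, hjn⟩ hij

/-- the maximum -/
def mx {n : ℕ} (e : Fin (n + 1) → ℕ) : ℕ := univ.sup e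

theorem le_mx {n : ℕ} (e : Fin (n + 1) → ℕ) (i : Fin (n + 1)) : e i ≤ mx e :=
  le_sup (f := e) (mem_univ i)

theorem exists_mx {n : ℕ} (e : Fin (n + 1) → ℕ) : ∃ i, e i = mx e := by
  obtain ⟨i, -, hi⟩ := exists_mem_eq_sup (univ : Finset (Fin (n + 1))) univ_nonempty e
  exact ⟨i, hi.symm⟩

theorem mx_app {n : ℕ} (e : Fin (n + 1) → ℕ) (c : ℕ) : mx (app e c) = max (mx e) c := by
  apply le_antisymm
  · apply Finset.sup_le
    intro i _
    refine Fin.lastCases ?_ (fun i' => ?_) i
    · rw [app_last]; exact le_max_right _ _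
    · rw [app_castSucc]; exact (le_mx e i').trans (le_max_left _ _)
  · apply max_le
    · apply Finset.sup_le
      intro i _
      have := le_mx (app e c) i.castSucc
      rwa [app_castSucc] at this
    · have := le_mx (app e c) (Fin.last (n + 1))
      rwa [app_last] at this

theorem allow_app {n : ℕ} (e : Fin (n + 1) → ℕ) (c x : ℕ) :
    allow (app e c) x ↔ allow e x ∧ ¬ (c < x ∧ x ≤ mx e) := by
  constructor
  · intro h
    refine ⟨fun i j hij => ?_, ?_⟩
    · have := h i.castSucc j.castSucc (by simpa using hij)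
      simpa only [app_castSucc] using this
    · obtain ⟨i, hi⟩ := exists_mx e
      have := h i.castSucc (Fin.last (n + 1)) (Fin.castSucc_lt_last _)
      rwa [app_castSucc, app_last, hi] at this
  · rintro ⟨h1, h2⟩ i j hij
    have hin : (i : ℕ) < n + 1 := by have := j.isLt; have : (i : ℕ) < j := hij; omega
    have e1 : app e c i = e ⟨i, hin⟩ := by simp [app, hin]
    rw [e1]
    by_cases hj : (j : ℕ) < n + 1
    · have e2 : app e c j = e ⟨j, hj⟩ := by simp [app, hj]
      rw [e2]
      exact h1 ⟨i, hin⟩ ⟨j, hj⟩ hij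
    · have e2 : app e c j = c := by simp [app, hj]
      rw [e2]
      have := le_mx e ⟨i, hin⟩
      omega

open Classical in
noncomputable def B {n : ℕ} (e : Fin (n + 1) → ℕ) : Finset ℕ :=
  (range (n + 2)).filter (fun x => allow e x)

theorem mem_B {n : ℕ} (e : Fin (n + 1) → ℕ) (t : ℕ) : t ∈ B e ↔ t < n + 2 ∧ allow e t := by
  classical
  unfold B
  simp only [mem_filter, mem_range]

noncomputable def lh {n : ℕ} (e : Fin (n + 1) → ℕ) : ℕ :=
  ((B e).filter (fun t => t ≤ mx e)).card
noncomputable def lk {n : ℕ} (e : Fin (n + 1) → ℕ) : ℕ :=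
  ((B e).filter (fun t => mx e < t)).card

theorem mx_le {n : ℕ} (e : Fin (n + 1) → ℕ) (h : W e) : mx e ≤ n := by
  apply Finset.sup_le
  intro i _
  have := h.1 i
  have := i.isLt
  omega

theorem B_app {n : ℕ} (e : Fin (n + 1) → ℕ) (h : W e) (c : ℕ) :
    B (app e c) = insert (n + 2) ((B e).filter (fun x => ¬ (c < x ∧ x ≤ mx e))) := by
  have hm := mx_le e h
  ext x
  simp only [mem_B, mem_filter, mem_insert]
  rw [allow_app]
  constructor
  · rintro ⟨h1, h2, h3⟩
    by_cases hx : x = n + 2
    · left; exact hx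
    · right; exact ⟨⟨by omega, h2⟩, h3⟩
  · rintro (h1 | ⟨⟨h1, h2⟩, h3⟩)
    · subst h1
      refine ⟨by omega, ?_, by omega⟩
      intro i j hij
      have := le_mx e i
      omega
    · exact ⟨by omega, h2, h3⟩

theorem inv_rule {n : ℕ} (e : Fin (n + 1) → ℕ) (h : W e) (f : ℕ → ℕ → ℕ) :
    ∑ c ∈ B e, f (lh (app e c)) (lk (app e c)) = R f (lh e) (lk e) := by
  have hm := mx_le e h
  have hB : ∀ x ∈ B e, x ≤ n + 1 := fun x hx => by
    have := ((mem_B e x).1 hx).1
    omega
  rw [← sum_filter_add_sum_filter_not (B e) (fun t => t ≤ mx e), add_comm]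
  unfold R
  congr 1
  · -- new maximum
    have e0 : (B e).filter (fun t => ¬ t ≤ mx e) = (B e).filter (fun t => mx e < t) := by
      ext t; simp only [mem_filter, not_le]
    rw [e0, show lk e = ((B e).filter (fun t => mx e < t)).card from rfl]
    rw [← sum_rank' ((B e).filter (fun t => mx e < t))
      (fun i => f (lh e + ((B e).filter (fun t => mx e < t)).card + 1 - i) i)]
    apply sum_congr rfl
    intro c hc
    have hcB := (mem_filter.1 hc).1
    have hcM := (mem_filter.1 hc).2
    have hcn := hB c hcB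
    have hmx : mx (app e c) = c := by rw [mx_app]; omega
    have hf : (B e).filter (fun x => ¬ (c < x ∧ x ≤ mx e)) = B e := by
      apply filter_true_of_mem
      intro x _; omega
    have k1 : lk (app e c) = (((B e).filter (fun t => mx e < t)).filter (fun y => c ≤ y)).card := by
      unfold lk
      rw [hmx, B_app e h c, hf]
      have a1 : (insert (n + 2) (B e)).filter (fun t => c < t)
          = insert (n + 2) ((B e).filter (fun t => c < t)) := by
        rw [filter_insert, if_pos (by omega)]
      have a2 : ((B e).filter (fun t => mx e < t)).filter (fun y => c ≤ y)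
          = insert c ((B e).filter (fun t => c < t)) := by
        ext t
        simp only [mem_filter, mem_insert]
        constructor
        · rintro ⟨⟨h1, h2⟩, h3⟩
          rcases Nat.lt_or_eq_of_le h3 with h4 | h4
          · right; exact ⟨h1, h4⟩
          · left; exact h4.symm
        · rintro (h1 | ⟨h1, h2⟩)
          · subst h1; exact ⟨⟨hcB, hcM⟩, le_refl _⟩
          · exact ⟨⟨h1, by omega⟩, by omega⟩
      rw [a1, a2, card_insert_of_notMem, card_insert_of_notMem]
      · simp
      · intro hmem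
        have := hB _ (mem_filter.1 hmem).1
        omega
    have h1 : lh (app e c) = ((B e).filter (fun t => t ≤ c)).card := by
      unfold lh
      rw [hmx, B_app e h c, hf, filter_insert, if_neg (by omega)]
    rw [h1, k1]
    congr 1
    have t1 : ((B e).filter (fun t => t ≤ c)).card + ((B e).filter (fun t => ¬ t ≤ c)).card
        = (B e).card := card_filter_add_card_filter_not _
    have t2 : ((B e).filter (fun t => t ≤ mx e)).card
        + ((B e).filter (fun t => ¬ t ≤ mx e)).card = (B e).card :=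
      card_filter_add_card_filter_not _
    rw [e0] at t2
    have t3 : ((B e).filter (fun t => t ≤ mx e)).card = lh e := rfl
    have t5 : (((B e).filter (fun t => mx e < t)).filter (fun y => c ≤ y)).card
        = ((B e).filter (fun t => ¬ t ≤ c)).card + 1 := by
      have : ((B e).filter (fun t => mx e < t)).filter (fun y => c ≤ y)
          = insert c ((B e).filter (fun t => ¬ t ≤ c)) := by
        ext t
        simp only [mem_filter, mem_insert]
        constructor
        · rintro ⟨⟨h1, h2⟩, h3⟩
          rcases Nat.lt_or_eq_of_le h3 with h4 | h4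
          · right; exact ⟨h1, by omega⟩
          · left; exact h4.symm
        · rintro (h1 | ⟨h1, h2⟩)
          · subst h1; exact ⟨⟨hcB, hcM⟩, le_refl _⟩
          · exact ⟨⟨h1, by omega⟩, by omega⟩
      rw [this, card_insert_of_notMem]
      simp
    omega
  · -- no new maximum
    rw [show lh e = ((B e).filter (fun t => t ≤ mx e)).card from rfl]
    rw [← sum_rank ((B e).filter (fun t => t ≤ mx e)) (fun i => f i (lk e + 1))]
    apply sum_congr rfl
    intro c hc
    have hcB := (mem_filter.1 hc).1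
    have hcM := (mem_filter.1 hc).2
    have hmx : mx (app e c) = mx e := by rw [mx_app]; omega
    congr 1
    · unfold lh
      rw [hmx, B_app e h c, filter_insert, if_neg (by omega)]
      congr 1
      ext t
      simp only [mem_filter]
      constructor
      · rintro ⟨⟨h1, h2⟩, h3⟩; exact ⟨⟨h1, h3⟩, by omega⟩
      · rintro ⟨⟨h1, h2⟩, h3⟩; exact ⟨⟨h1, by omega⟩, h2⟩
    · unfold lk
      rw [hmx, B_app e h c, filter_insert, if_pos (by omega), card_insert_of_notMem]
      · congr 2
        ext t
        simp only [mem_filter]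
        constructor
        · rintro ⟨⟨h1, h2⟩, h3⟩; exact ⟨h1, h3⟩
        · rintro ⟨h1, h3⟩; exact ⟨⟨h1, by omega⟩, h3⟩
      · intro hmem
        have := hB _ (mem_filter.1 (mem_filter.1 hmem).1).1
        omega

open Classical in
noncomputable def IS (n : ℕ) : Finset (Fin n → ℕ) :=
  (Fintype.piFinset (fun i : Fin n => range (i.val + 1))).filter (fun e => W e)

theorem mem_IS {n : ℕ} (e : Fin n → ℕ) : e ∈ IS n ↔ W e := by
  simp only [IS, mem_filter, Fintype.mem_piFinset, mem_range, and_iff_right_iff_imp]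
  intro h i
  have := h.1 i
  omega

theorem IS_step (n : ℕ) (F : (Fin (n + 2) → ℕ) → ℕ) :
    ∑ e ∈ IS (n + 2), F e = ∑ e ∈ IS (n + 1), ∑ c ∈ B e, F (app e c) := by
  rw [sum_sigma']
  have key : ∀ e : Fin (n + 2) → ℕ, app (fun i : Fin (n + 1) => e i.castSucc) (e (Fin.last (n + 1))) = e := by
    intro e
    funext i
    refine Fin.lastCases ?_ (fun j => ?_) i
    · rw [app_last]
    · rw [app_castSucc]
  refine sum_bij' (fun e _ => (⟨fun i => e i.castSucc, e (Fin.last (n + 1))⟩ :
      Σ _ : Fin (n + 1) → ℕ, ℕ)) (fun p _ => app p.1 p.2) ?_ ?_ ?_ ?_ ?_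
  · intro e he
    rw [mem_IS, ← key e, W_app] at he
    rw [mem_sigma]
    refine ⟨(mem_IS _).2 he.1, ?_⟩
    rw [mem_B]
    exact ⟨by have := he.2.1; simp only; omega, he.2.2⟩
  · rintro ⟨e, c⟩ hp
    rw [mem_sigma] at hp
    rw [mem_B] at hp
    rw [mem_IS, W_app]
    exact ⟨(mem_IS _).1 hp.1, by have := hp.2.1; simp only at this ⊢; omega, hp.2.2⟩
  · intro e he
    exact key e
  · rintro ⟨e, c⟩ hp
    simp only [app_castSucc, app_last]
  · intro e he
    simp only
    rw [key]

/-! ### Comparison -/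

theorem PS_one : PS 1 = {fun _ => 0} := by
  ext s
  rw [mem_PS, mem_singleton]
  constructor
  · intro h
    funext i
    have := h.1 i
    omega
  · rintro rfl
    refine ⟨fun _ => by simp, fun i j _ => Subsingleton.elim _ _, ?_⟩
    intro i b b' l h1
    exact absurd h1 (by have := b.isLt; have := b'.isLt; omega)

theorem IS_one : IS 1 = {fun _ => 0} := by
  ext s
  rw [mem_IS, mem_singleton]
  constructor
  · intro h
    funext i
    have := h.1 i
    have := i.isLt
    omega
  · rintro rfl
    refine ⟨fun _ => by simp, ?_⟩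
    intro i j k h1
    exact absurd h1 (by rw [Subsingleton.elim i j]; exact lt_irrefl _)

theorem sum_PS_one (f : ℕ → ℕ → ℕ) : ∑ s ∈ PS 1, f (lp s) (lq s) = f 1 1 := by
  rw [PS_one, sum_singleton]
  have hA : A (n := 0) (fun _ : Fin 1 => 0) = {0, 1} := by
    ext t
    rw [mem_A]
    simp only [mem_insert, mem_singleton]
    constructor
    · rintro ⟨h1, -⟩; omega
    · intro h1
      refine ⟨by omega, ?_⟩
      intro i b b' h1
      exact absurd h1 (by have := b.isLt; have := b'.isLt; omega)
  unfold lp lq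
  rw [hA]
  rfl

theorem sum_IS_one (f : ℕ → ℕ → ℕ) : ∑ s ∈ IS 1, f (lh s) (lk s) = f 1 1 := by
  rw [IS_one, sum_singleton]
  have hA : B (n := 0) (fun _ : Fin 1 => 0) = {0, 1} := by
    ext t
    rw [mem_B]
    simp only [mem_insert, mem_singleton]
    constructor
    · rintro ⟨h1, -⟩; omega
    · intro h1
      refine ⟨by omega, ?_⟩
      intro i j h1
      rw [Fin.lt_def] at h1
      have := i.isLt
      have := j.isLt
      omega
  have hm : mx (n := 0) (fun _ : Fin 1 => 0) = 0 := by
    have := mx_le (n := 0) (fun _ : Fin 1 => 0) ((mem_IS _).1 (by rw [IS_one]; simp))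
    omega
  unfold lh lk
  rw [hA, hm]
  rfl

theorem main_sum (n : ℕ) (f : ℕ → ℕ → ℕ) :
    ∑ s ∈ PS (n + 1), f (lp s) (lq s) = ∑ e ∈ IS (n + 1), f (lh e) (lk e) := by
  induction n generalizing f with
  | zero => exact (sum_PS_one f).trans (sum_IS_one f).symm
  | succ n ih =>
    rw [PS_step n (fun s => f (lp s) (lq s)), IS_step n (fun e => f (lh e) (lk e))]
    have h1 : ∑ s ∈ PS (n + 1), ∑ c ∈ A s, f (lp (ext s c)) (lq (ext s c))
        = ∑ s ∈ PS (n + 1), R f (lp s) (lq s) :=
      sum_congr rfl fun s hs => perm_rule s ((mem_PS s).1 hs) f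
    have h2 : ∑ e ∈ IS (n + 1), ∑ c ∈ B e, f (lh (app e c)) (lk (app e c))
        = ∑ e ∈ IS (n + 1), R f (lh e) (lk e) :=
      sum_congr rfl fun e he => inv_rule e ((mem_IS e).1 he) f
    rw [h1, h2]
    exact ih (R f)

theorem card_eq (n : ℕ) : (PS n).card = (IS n).card := by
  cases n with
  | zero =>
    have h1 : PS 0 = {fun i => i.elim0} := by
      ext s
      rw [mem_PS, mem_singleton]
      constructor
      · intro _; funext i; exact i.elim0
      · rintro rfl
        exact ⟨fun i => i.elim0, fun i => i.elim0, fun i => i.elim0⟩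
    have h2 : IS 0 = {fun i => i.elim0} := by
      ext s
      rw [mem_IS, mem_singleton]
      constructor
      · intro _; funext i; exact i.elim0
      · rintro rfl
        exact ⟨fun i => i.elim0, fun i => i.elim0⟩
    rw [h1, h2]
  | succ n =>
    have := main_sum n (fun _ _ => 1)
    simpa using this

/-- barred pattern versus vincular pattern -/
theorem barred_iff {n : ℕ} (σ : Equiv.Perm (Fin n)) :
    (∀ i j k l : Fin n, i < j → j < k → k < l →
          σ j < σ i → σ i < σ l → σ l < σ k →
          ∃ m : Fin n, j < m ∧ m < k ∧ σ i < σ m ∧ σ m < σ l) ↔ V (fun i => ((σ i : Fin n) : ℕ)) := by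
  constructor
  · intro h i b b' l h1 h2 h3 h4
    obtain ⟨m, hm1, hm2, -⟩ := h i b b' l h2 (by rw [Fin.lt_def]; omega) h3
      (Fin.lt_def.2 h4.1) (Fin.lt_def.2 h4.2.1) (Fin.lt_def.2 h4.2.2)
    rw [Fin.lt_def] at hm1 hm2
    omega
  · intro hV i j k l hij hjk hkl h1 h2 h3
    by_contra hcon
    push Not at hcon
    -- last position in `[j,k)` with a value below `σ i`
    have hne : ((univ : Finset (Fin n)).filter (fun b => j ≤ b ∧ b < k ∧ σ b < σ i)).Nonempty :=
      ⟨j, mem_filter.2 ⟨mem_univ _, le_refl _, hjk, h1⟩⟩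
    obtain ⟨b, hb, hmax⟩ := exists_max_image _ (fun b : Fin n => b) hne
    obtain ⟨-, hb1, hb2, hb3⟩ := mem_filter.1 hb
    have hbk : (b : ℕ) + 1 ≤ k := by have : (b : ℕ) < k := hb2; omega
    have hbn : (b : ℕ) + 1 < n := by have := k.isLt; have : (k : ℕ) < l := hkl; have := l.isLt; omega
    set b' : Fin n := ⟨b + 1, hbn⟩ with hb'
    have hb'k : b' ≤ k := by rw [Fin.le_def]; exact hbk
    have hjb' : j < b' := by
      rw [Fin.lt_def]
      have : (j : ℕ) ≤ b := hb1
      simp only [hb']
      omega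
    have hib : i < b := lt_of_lt_of_le hij hb1
    have hlb' : σ l < σ b' := by
      rcases lt_or_eq_of_le hb'k with h4 | h4
      · have h5 : ¬ σ b' < σ i := by
          intro h6
          have := hmax b' (mem_filter.2 ⟨mem_univ _, le_of_lt hjb', h4, h6⟩)
          rw [Fin.le_def] at this
          simp only [hb'] at this
          omega
        have h6 : σ i ≠ σ b' := by
          intro h7
          have : i = b' := σ.injective h7
          rw [← this] at hjb'
          exact absurd hij (not_lt.2 hjb'.le)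
        have h7 : σ i < σ b' := lt_of_le_of_ne (not_lt.1 h5) h6
        have h8 := hcon b' hjb' h4 h7
        refine lt_of_le_of_ne h8 ?_
        intro h9
        have : l = b' := σ.injective h9
        rw [← this] at h4
        exact absurd h4 (not_lt.2 hkl.le)
      · rw [h4]; exact h3
    exact hV i b b' l rfl hib (lt_of_le_of_lt hb'k hkl)
      ⟨Fin.lt_def.1 hb3, Fin.lt_def.1 h2, Fin.lt_def.1 hlb'⟩

theorem perm_card (n : ℕ) :
    Nat.card {σ : Equiv.Perm (Fin n) //
        ∀ i j k l : Fin n, i < j → j < k → k < l →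
          σ j < σ i → σ i < σ l → σ l < σ k →
          ∃ m : Fin n, j < m ∧ m < k ∧ σ i < σ m ∧ σ m < σ l} = (PS n).card := by
  rw [← Nat.card_eq_finsetCard]
  refine Nat.card_congr (Equiv.ofBijective (fun σ => ⟨fun i => ((σ.1 i : Fin n) : ℕ), ?_⟩) ⟨?_, ?_⟩)
  · rw [mem_PS]
    refine ⟨fun i => (σ.1 i).isLt, ?_, (barred_iff σ.1).1 σ.2⟩
    intro i j hij
    exact σ.1.injective (Fin.ext hij)
  · intro σ τ h
    apply Subtype.ext
    apply Equiv.ext
    intro i
    have := congrArg (fun f => f.1 i) h
    exact Fin.ext this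
  · rintro ⟨s, hs⟩
    have hG := (mem_PS s).1 hs
    have hinj : Injective (fun i : Fin n => (⟨s i, hG.1 i⟩ : Fin n)) := by
      intro i j hij
      exact hG.2.1 (by simpa using hij)
    set σ : Equiv.Perm (Fin n) :=
      Equiv.ofBijective _ (Finite.injective_iff_bijective.1 hinj) with hσ
    have hσs : (fun i => ((σ i : Fin n) : ℕ)) = s := by
      funext i
      simp [hσ]
    refine ⟨⟨σ, (barred_iff σ).2 ?_⟩, ?_⟩
    · rw [hσs]; exact hG.2.2
    · apply Subtype.ext
      exact hσs

theorem inv_card (n : ℕ) :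
    Nat.card {e : Fin n → Fin n //
        (∀ i : Fin n, (e i).val ≤ i.val) ∧
        ∀ i j k : Fin n, i < j → j < k →
          ¬ (e i = e k ∧ e j < e i) ∧ ¬ (e j < e k ∧ e k < e i)} = (IS n).card := by
  rw [← Nat.card_eq_finsetCard]
  refine Nat.card_congr (Equiv.ofBijective (fun e => ⟨fun i => ((e.1 i : Fin n) : ℕ), ?_⟩) ⟨?_, ?_⟩)
  · rw [mem_IS]
    refine ⟨e.2.1, ?_⟩
    intro i j k hij hjk h
    obtain ⟨h1, h2⟩ := e.2.2 i j k hij hjk
    have h4 : (e.1 j : ℕ) < (e.1 k : ℕ) := h.1
    have h5 : (e.1 k : ℕ) ≤ (e.1 i : ℕ) := h.2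
    rcases Nat.lt_or_eq_of_le h5 with h3 | h3
    · exact h2 ⟨Fin.lt_def.2 h4, Fin.lt_def.2 h3⟩
    · exact h1 ⟨Fin.ext h3.symm, Fin.lt_def.2 (by omega)⟩
  · intro e e' h
    apply Subtype.ext
    funext i
    have := congrArg (fun f => f.1 i) h
    exact Fin.ext this
  · rintro ⟨s, hs⟩
    have hW := (mem_IS s).1 hs
    refine ⟨⟨fun i => ⟨s i, lt_of_le_of_lt (hW.1 i) i.isLt⟩, fun i => hW.1 i, ?_⟩, ?_⟩
    · intro i j k hij hjk
      have h := hW.2 i j k hij hjk
      refine ⟨?_, ?_⟩
      · rintro ⟨h1, h2⟩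
        rw [Fin.ext_iff] at h1
        rw [Fin.lt_def] at h2
        simp only at h1 h2
        exact h ⟨by omega, by omega⟩
      · rintro ⟨h1, h2⟩
        rw [Fin.lt_def] at h1 h2
        simp only at h1 h2
        exact h ⟨by omega, by omega⟩
    · apply Subtype.ext
      rfl

end Pool.Agent.N676.SemiBaxter
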